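import Pool.Agent.PFJ.StmtsG

set_option autoImplicit false

open Matrix Filter Topology

namespace Pool.Agent.PFJ.H94

open Pool.Agent.PFS

/-- Row G_EVB. -/
theorem g_evb (hBoa : BoaStmt) (hDec : DecStmt) : EvbStmt := by
  intro n C Γ h K hK L x L' w β hB hS hB' hS' hF hsup hlim
  have hne : ∀ (y : V n), y ∈ LamC C Γ → y ≠ 0 := by
    rintro y ⟨t, ht, u, hu, rfl⟩
    refine smul_ne_zero ht.ne' ?_
    intro h0
    have h1 := hu.1
    rw [h0, norm_zero] at h1
    exact zero_ne_one h1
  rw [Filter.eventually_all]
  intro a
  by_cases ha : ∃ i, β i = a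
  · obtain ⟨i, rfl⟩ := ha
    have h0 : ∀ m, L m (β i) ≠ ⊥ := by
      intro m hbot
      have h1 := (hB m).mem i
      rw [hbot, Submodule.mem_bot] at h1
      exact hne _ ((hB m).pes.2 i) h1
    have hL'0 : L' (β i) ≠ ⊥ := by
      intro hbot
      have h1 := hB'.mem i
      rw [hbot, Submodule.mem_bot] at h1
      exact hne _ (hB'.pes.2 i) h1
    have hdec : ∀ m, ∃ b, L m (β i) = L' b := by
      intro m
      exact hDec n C Γ h K hK (L m) (x m) β L' w β (hB m) hB' (by rw [hsup m]; exact hF)
        (hS m) hS' (hsup m) (β i) (h0 m)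
    have key : ∀ b, b ≠ β i → ∀ᶠ m in atTop, L m (β i) ≠ L' b := by
      intro b hb
      by_contra hcon
      have hfr : ∃ᶠ m in atTop, L m (β i) = L' b := by
        intro h3
        exact hcon h3
      have hle : ∀ z ∈ L' (β i), z ∈ L' b := by
        intro z hz
        obtain ⟨y, hy, hyz⟩ := (hlim (β i)).1 z hz
        have hcl : IsClosed ((L' b : Submodule ℝ (V n)) : Set (V n)) :=
          Submodule.closed_of_finiteDimensional _
        refine hcl.mem_of_frequently_of_tendsto (hfr.mono fun m hm => ?_) hyz
        have h4 := hy m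
        simp only at h4
        rw [hm] at h4
        exact h4
      apply hL'0
      rw [Submodule.eq_bot_iff]
      intro z hz
      have hb6 := (hBoa n C Γ h K L' w β hB').2.2.2.2.2
        (fun l => (if l = β i then z else 0) + (if l = b then -z else 0)) (by
          intro l
          refine Submodule.add_mem _ ?_ ?_
          · split_ifs with h5
            · rw [h5]; exact hz
            · exact Submodule.zero_mem _
          · split_ifs with h5
            · rw [h5]; exact Submodule.neg_mem _ (hle z hz)
            · exact Submodule.zero_mem _) (by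
          simp only [Finset.sum_add_distrib, Finset.sum_ite_eq', Finset.mem_univ, if_true]
          exact add_neg_cancel z) (β i)
      have hb' : ¬ β i = b := fun h => hb h.symm
      simpa [hb'] using hb6
    have hall : ∀ᶠ m in atTop, ∀ b, b ≠ β i → L m (β i) ≠ L' b := by
      rw [Filter.eventually_all]
      intro b
      by_cases hb : b = β i
      · exact Eventually.of_forall fun m h => absurd hb h
      · exact (key b hb).mono fun m hm _ => hm
    refine hall.mono fun m hm => ?_
    obtain ⟨b, hb⟩ := hdec m
    by_cases hba : b = β i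
    · rw [hb, hba]
    · exact absurd hb (hm b hba)
  · refine Eventually.of_forall fun m => ?_
    rw [(hB m).bot a (fun i hi => ha ⟨i, hi⟩), hB'.bot a (fun i hi => ha ⟨i, hi⟩)]

end Pool.Agent.PFJ.H94
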