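import Pool.Agent.PFJ.StmtsG

set_option autoImplicit false

open Matrix Filter Topology

namespace Pool.Agent.PFJ.H94

open Pool.Agent.PFS

theorem lamC_mem {n : ℕ} {C : Set (V n)} {Γ : Subgroup (GL (Fin n) ℝ)} (h : CC C Γ) {x : V n}
    (hx : x ∈ LamC C Γ) : x ∈ closure C ∧ x ≠ 0 := by
  obtain ⟨t, ht, u, hu, rfl⟩ := hx
  refine ⟨h.toPCone.cl_smul_pos hu.2.1 ht, smul_ne_zero ht.ne' ?_⟩
  intro h0
  have h1 := hu.1
  rw [h0, norm_zero] at h1
  exact zero_ne_one h1

/-- Row G_NUN. -/
theorem g_nun (hLin : LinStmt) : NunStmt := by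
  intro n C Γ h K L w β hB
  have hP := hB.pes.1
  refine ⟨?_, ?_, fun i => lamC_mem h (hB.pes.2 i)⟩
  · intro i j hij hβ hU
    have hj : w j ∈ L (β i) := by
      rw [hβ]
      exact hB.mem j
    obtain ⟨M, hM, hMj⟩ := hU.2.2 (w j) hj
    have h1 : ∑ l, (1 : ℝ) • w l ∈ C := hP.pos (fun _ => 1) (fun _ => one_pos)
    have h2 : ∑ l, ((1 : ℝ) + (if l = i then M else 0) - (if l = j then 1 else 0)) • w l ∈ C := by
      refine h.toPCone.mem_of_le h1 ?_
      have h3 : ∑ l, ((1 : ℝ) + (if l = i then M else 0) - (if l = j then 1 else 0)) • w l -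
          ∑ l, (1 : ℝ) • w l = M • w i - w j := by
        simp only [sub_smul, add_smul, Finset.sum_sub_distrib, Finset.sum_add_distrib, ite_smul,
          zero_smul, Finset.sum_ite_eq', Finset.mem_univ, if_true, one_smul]
        abel
      rw [h3]
      exact hMj
    refine hP.bd _ ?_ ⟨j, ?_⟩ h2
    · intro l
      by_cases hl : l = j
      · subst hl
        have hli : ¬ l = i := fun h => hij h.symm
        simp [hli]
      · by_cases hli : l = i
        · subst hli
          simp only [hl, if_true, if_false]
          linarith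
        · simp [hl, hli]
    · have hji : ¬ j = i := fun h => hij h.symm
      simp [hji]
  · intro i j hij a b hab
    have hlin := hLin n C h.toPCone (Fin K) w hP
    have h2 := Fintype.linearIndependent_iff.1 hlin
      (fun l => (if l = i then a else 0) + (if l = j then b else 0)) (by
        simp only [add_smul, Finset.sum_add_distrib, ite_smul, zero_smul, Finset.sum_ite_eq',
          Finset.mem_univ, if_true]
        exact hab)
    have h3 := h2 i
    have h4 := h2 j
    have hji : ¬ j = i := fun h => hij h.symm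
    simp only [if_true, hij, if_false, add_zero] at h3
    simp only [if_true, hji, if_false, zero_add] at h4
    exact ⟨h3, h4⟩

end Pool.Agent.PFJ.H94
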